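import Pool.Agent.Helper74.RT.Defs

/-!
# RT-04: the number of breaks is at most a constant times the number of leaves
-/

set_option autoImplicit false

namespace Pool.Agent.Helper74.RT

variable {G : Type*} [Group G]

open Classical in
theorem count_breaks {L C : Subgroup G} {s : ℕ} (P : Fin s → Subgroup G) (B D D' : Finset G)
    (key : G → G → Option ((q : Fin s) × (G ⧸ P q))) (c₁ c₂ ω m f : ℕ)
    (hk1 : ∀ b ∈ B, b ∉ C → ∀ x π, key b x = some π → x ∈ nb P D π)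
    (hk2 : ∀ b ∈ B, b ∉ C → ∀ x x', x⁻¹ * x' ∈ L → (x * b)⁻¹ * (x' * b) ∈ L → key b x = key b x')
    (hk3 : ∀ b ∈ B, b ∉ C → ∀ x, key b x = none → ∀ X : Finset G,
        (∀ y ∈ X, ∀ y' ∈ X, y⁻¹ * y' ∈ L ∧ (y * b)⁻¹ * (y' * b) ∈ L) → X.card ≤ c₁)
    (hω : ∀ Q : Finset ((q : Fin s) × (G ⧸ P q)),
      ((Q ×ˢ Q).filter fun z => z.1 ≠ z.2 ∧ (nb P D' z.1 ∩ nb P D' z.2).Nonempty).card ≤ ω * Q.card)
    (hc₂ : ∀ π π' : (q : Fin s) × (G ⧸ P q), π ≠ π' →
      ∀ X : Finset G, (∀ x ∈ X, x ∈ nb P D' π ∧ x ∈ nb P D' π') → X.card ≤ c₂)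
    (hDD : D ⊆ D') (p β : ℕ → G)
    (hp : ∀ j < m, ∀ j' < m, (p j)⁻¹ * p j' ∈ L)
    (hinj : ∀ j < m, ∀ j' < m, p j = p j' → j = j')
    (hβ : ∀ j < m, β j ∈ B)
    (hnear : ∀ j j' π, j < j' → j' ≤ j + f → j' < m → β j' ∉ C → key (β j') (p j') = some π →
      p j ∈ nb P D' π) :
    ((Finset.range m).filter fun j => β j ∉ C ∧ (key (β j) (p j) = none ∨
      ∃ π, key (β j) (p j) = some π ∧ ∃ j', j < j' ∧ j' ≤ j + f ∧ j' < m ∧ β j' ∉ C ∧
        ∃ π', key (β j') (p j') = some π' ∧ π' ≠ π)).card ≤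
      (c₁ * B.card + c₂ * (ω * B.card)) *
        ((Finset.range m).image fun j => ((p j * β j : G) : G ⧸ L)).card := by
  obtain ⟨Lv, hLv⟩ : ∃ Lv, Lv = (Finset.range m).image fun j => ((p j * β j : G) : G ⧸ L) := ⟨_, rfl⟩
  rw [← hLv]
  have hlv : ∀ j < m, ((p j * β j : G) : G ⧸ L) ∈ Lv := by
    intro j hj
    rw [hLv]
    exact Finset.mem_image_of_mem _ (Finset.mem_range.2 hj)
  -- breaks of the first kind
  have hA : ((Finset.range m).filter fun j => β j ∉ C ∧ key (β j) (p j) = none).card ≤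
      c₁ * (B ×ˢ Lv).card := by
    refine (Finset.card_le_mul_card_image (f := fun j => (β j, ((p j * β j : G) : G ⧸ L))) _ c₁
      ?_).trans ?_
    · intro z hz
      obtain ⟨j₀, hj₀, hz⟩ := Finset.mem_image.1 hz
      obtain ⟨hj₀m, hj₀C, hj₀k⟩ := Finset.mem_filter.1 hj₀
      have hj₀m' := Finset.mem_range.1 hj₀m
      have h1 := hk3 (β j₀) (hβ j₀ hj₀m') hj₀C (p j₀) hj₀k
        ((((Finset.range m).filter fun j => β j ∉ C ∧ key (β j) (p j) = none).filter fun j =>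
          (β j, ((p j * β j : G) : G ⧸ L)) = z).image p) (by
        intro y hy y' hy'
        obtain ⟨j, hj, rfl⟩ := Finset.mem_image.1 hy
        obtain ⟨j', hj', rfl⟩ := Finset.mem_image.1 hy'
        obtain ⟨hj, hjz⟩ := Finset.mem_filter.1 hj
        obtain ⟨hj', hjz'⟩ := Finset.mem_filter.1 hj'
        have hjm := Finset.mem_range.1 (Finset.mem_filter.1 hj).1
        have hjm' := Finset.mem_range.1 (Finset.mem_filter.1 hj').1
        refine ⟨hp j hjm j' hjm', ?_⟩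
        have h2 := hjz.trans hz.symm
        have h3 := hjz'.trans hz.symm
        obtain ⟨h4, h5⟩ := Prod.mk.inj h2
        obtain ⟨h6, h7⟩ := Prod.mk.inj h3
        rw [h4] at h5
        rw [h6] at h7
        exact QuotientGroup.eq.1 (h5.trans h7.symm))
      rw [Finset.card_image_of_injOn] at h1
      · exact h1
      · intro j hj j' hj' hjj
        have hjm := Finset.mem_range.1 (Finset.mem_filter.1 (Finset.mem_filter.1
          (Finset.mem_coe.1 hj)).1).1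
        have hjm' := Finset.mem_range.1 (Finset.mem_filter.1 (Finset.mem_filter.1
          (Finset.mem_coe.1 hj')).1).1
        exact hinj j hjm j' hjm' hjj
    · refine Nat.mul_le_mul_left _ (Finset.card_le_card ?_)
      intro z hz
      obtain ⟨j, hj, rfl⟩ := Finset.mem_image.1 hz
      have hjm := Finset.mem_range.1 (Finset.mem_filter.1 hj).1
      exact Finset.mem_product.2 ⟨hβ j hjm, hlv j hjm⟩
  -- the keys
  obtain ⟨Q, hQ⟩ : ∃ Q : Finset ((q : Fin s) × (G ⧸ P q)), ∀ π, π ∈ Q ↔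
      ∃ j < m, β j ∉ C ∧ key (β j) (p j) = some π := by
    refine ⟨(Finset.range m).biUnion fun j => if β j ∉ C then (key (β j) (p j)).toFinset else ∅, ?_⟩
    intro π
    rw [Finset.mem_biUnion]
    constructor
    · rintro ⟨j, hj, hπ⟩
      by_cases hC : β j ∉ C
      · rw [if_pos hC, Option.mem_toFinset] at hπ
        exact ⟨j, Finset.mem_range.1 hj, hC, hπ⟩
      · rw [if_neg hC] at hπ
        exact absurd hπ (Finset.notMem_empty _)
    · rintro ⟨j, hj, hC, hπ⟩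
      refine ⟨j, Finset.mem_range.2 hj, ?_⟩
      rw [if_pos hC, Option.mem_toFinset]
      exact hπ
  have hQc : Q.card ≤ (B ×ˢ Lv).card := by
    have hch : ∀ π : (q : Fin s) × (G ⧸ P q), ∃ j, π ∈ Q → j < m ∧ β j ∉ C ∧
        key (β j) (p j) = some π := by
      intro π
      by_cases hπ : π ∈ Q
      · obtain ⟨j, hj⟩ := (hQ π).1 hπ
        exact ⟨j, fun _ => hj⟩
      · exact ⟨0, fun h => absurd h hπ⟩
    choose j hj using hch
    refine Finset.card_le_card_of_injOn (fun π => (β (j π), ((p (j π) * β (j π) : G) : G ⧸ L))) ?_ ?_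
    · intro π hπ
      obtain ⟨h1, -, -⟩ := hj π (Finset.mem_coe.1 hπ)
      exact Finset.mem_coe.2 (Finset.mem_product.2 ⟨hβ _ h1, hlv _ h1⟩)
    · intro π hπ π' hπ' hππ
      obtain ⟨h1, h2, h3⟩ := hj π (Finset.mem_coe.1 hπ)
      obtain ⟨h4, h5, h6⟩ := hj π' (Finset.mem_coe.1 hπ')
      obtain ⟨h7, h8⟩ := Prod.mk.inj hππ
      rw [h7] at h8
      have h9 := QuotientGroup.eq.1 h8
      have h10 := hk2 (β (j π')) (hβ _ h4) h5 (p (j π)) (p (j π')) (hp _ h1 _ h4) h9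
      rw [h7, h10, h6] at h3
      exact (Option.some.inj h3).symm
  -- breaks of the second kind
  obtain ⟨S, hS⟩ : ∃ S, S = (Finset.range m).filter fun j => β j ∉ C ∧ ∃ π, key (β j) (p j) = some π ∧
      ∃ j', j < j' ∧ j' ≤ j + f ∧ j' < m ∧ β j' ∉ C ∧
        ∃ π', key (β j') (p j') = some π' ∧ π' ≠ π := ⟨_, rfl⟩
  have hB : S.card ≤ c₂ * (ω * Q.card) := by
    rcases S.eq_empty_or_nonempty with hE | ⟨j₀, hj₀⟩
    · rw [hE]
      simp
    have hex : ∀ j ∈ S, ∃ z : ((q : Fin s) × (G ⧸ P q)) × ((q : Fin s) × (G ⧸ P q)),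
        z.1 ∈ Q ∧ z.2 ∈ Q ∧ z.1 ≠ z.2 ∧ p j ∈ nb P D' z.1 ∧ p j ∈ nb P D' z.2 := by
      intro j hj
      rw [hS] at hj
      obtain ⟨h1, h2, π, hπ, j', h3, h4, h5, h6, π', hπ', hne⟩ := Finset.mem_filter.1 hj
      have h1' := Finset.mem_range.1 h1
      refine ⟨(π, π'), (hQ π).2 ⟨j, h1', h2, hπ⟩, (hQ π').2 ⟨j', h5, h6, hπ'⟩,
          fun h => hne h.symm, ?_, hnear j j' π' h3 h4 h5 h6 hπ'⟩
      obtain ⟨d, hd, hd'⟩ := hk1 (β j) (hβ j h1') h2 (p j) π hπ
      exact ⟨d, hDD hd, hd'⟩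
    obtain ⟨z₀, -⟩ := hex j₀ hj₀
    have hch : ∀ j, ∃ z : ((q : Fin s) × (G ⧸ P q)) × ((q : Fin s) × (G ⧸ P q)), j ∈ S →
        z.1 ∈ Q ∧ z.2 ∈ Q ∧ z.1 ≠ z.2 ∧ p j ∈ nb P D' z.1 ∧ p j ∈ nb P D' z.2 := by
      intro j
      by_cases hj : j ∈ S
      · obtain ⟨z, hz⟩ := hex j hj
        exact ⟨z, fun _ => hz⟩
      · exact ⟨z₀, fun h => absurd h hj⟩
    choose φ hφ using hch
    have hSm : ∀ j ∈ S, j < m := by
      intro j hj
      rw [hS] at hj
      exact Finset.mem_range.1 (Finset.mem_filter.1 hj).1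
    refine (Finset.card_le_mul_card_image (f := φ) _ c₂ ?_).trans ?_
    · intro z hz
      obtain ⟨j₁, hj₁, hz⟩ := Finset.mem_image.1 hz
      have h1 := hc₂ z.1 z.2 (by rw [← hz]; exact (hφ j₁ hj₁).2.2.1)
        ((S.filter fun j => φ j = z).image p) (by
        intro y hy
        obtain ⟨j, hj, rfl⟩ := Finset.mem_image.1 hy
        obtain ⟨hj, hjz⟩ := Finset.mem_filter.1 hj
        rw [← hjz]
        exact (hφ j hj).2.2.2)
      rw [Finset.card_image_of_injOn] at h1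
      · exact h1
      · intro j hj j' hj' hjj
        exact hinj j (hSm j (Finset.mem_filter.1 (Finset.mem_coe.1 hj)).1) j'
          (hSm j' (Finset.mem_filter.1 (Finset.mem_coe.1 hj')).1) hjj
    · refine Nat.mul_le_mul_left _ ((Finset.card_le_card ?_).trans (hω Q))
      intro z hz
      obtain ⟨j, hj, rfl⟩ := Finset.mem_image.1 hz
      obtain ⟨h1, h2, h3, h4, h5⟩ := hφ j hj
      rw [Finset.mem_filter, Finset.mem_product]
      exact ⟨⟨h1, h2⟩, h3, ⟨p j, h4, h5⟩⟩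
  have hsub : ((Finset.range m).filter fun j => β j ∉ C ∧ (key (β j) (p j) = none ∨
      ∃ π, key (β j) (p j) = some π ∧ ∃ j', j < j' ∧ j' ≤ j + f ∧ j' < m ∧ β j' ∉ C ∧
        ∃ π', key (β j') (p j') = some π' ∧ π' ≠ π)) ⊆
      ((Finset.range m).filter fun j => β j ∉ C ∧ key (β j) (p j) = none) ∪ S := by
    intro j hj
    obtain ⟨h1, h2, h3⟩ := Finset.mem_filter.1 hj
    rw [Finset.mem_union]
    rcases h3 with h3 | h3
    · exact Or.inl (Finset.mem_filter.2 ⟨h1, h2, h3⟩)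
    · refine Or.inr ?_
      rw [hS]
      exact Finset.mem_filter.2 ⟨h1, h2, h3⟩
  refine (Finset.card_le_card hsub).trans ((Finset.card_union_le _ _).trans ?_)
  refine (Nat.add_le_add hA (hB.trans (Nat.mul_le_mul_left _ (Nat.mul_le_mul_left _ hQc)))).trans ?_
  rw [Finset.card_product]
  apply le_of_eq
  ring

end Pool.Agent.Helper74.RT
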