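import Pool.Agent.Helper65.GN.Defs
import Pool.Agent.Helper75.Apc.Count

/-!
RT-Cyc. For finitely many infinite cyclic subgroups two colours are enough.

Dots: on every line `x ⟨h q⟩` there is one dot in every interval of length `l`, and different dots are far apart
(`y⁻¹ * y' ∉ F`); local lemma. The colour is `1` near the dots and `0` elsewhere: a chain along a line which stays
near the colour `0` cannot pass a dot, a chain near the colour `1` stays near one dot.
-/

set_option autoImplicit false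

namespace Pool.Agent.Helper74.RT

open Pool.Agent.Helper65.TH
open Pool.Agent.Helper65.GN (Bdd)

/-- coordinates on the lines `x ⟨h⟩` -/
theorem exists_coord {G : Type*} [Group G] (h : G) (hinf : ∀ n : ℤ, h ^ n = 1 → n = 0) :
    ∃ (rep : G → G) (n : G → ℤ), (∀ x, rep x * h ^ n x = x) ∧ (∀ x (j : ℤ), rep (x * h ^ j) = rep x) ∧
      ∀ x (j : ℤ), n (x * h ^ j) = n x + j := by
  classical
  have hinj : ∀ i j : ℤ, h ^ i = h ^ j → i = j := by
    intro i j hij
    have h1 : h ^ (i - j) = 1 := by rw [zpow_sub, hij, mul_inv_cancel]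
    have := hinf _ h1
    omega
  obtain ⟨rep, hrep⟩ : ∃ rep : G → G, ∀ x, rep x = ((x : G ⧸ Subgroup.zpowers h)).out :=
    ⟨_, fun _ => rfl⟩
  have hex : ∀ x, ∃ n : ℤ, rep x * h ^ n = x := by
    intro x
    have h1 : ((rep x : G) : G ⧸ Subgroup.zpowers h) = x := by
      rw [hrep]
      exact Quotient.out_eq _
    obtain ⟨n, hn⟩ := Subgroup.mem_zpowers_iff.1 (QuotientGroup.eq.1 h1)
    exact ⟨n, by rw [hn, mul_inv_cancel_left]⟩
  choose n hn using hex
  have hr : ∀ x (j : ℤ), rep (x * h ^ j) = rep x := by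
    intro x j
    rw [hrep, hrep]
    congr 1
    apply QuotientGroup.eq.2
    rw [mul_inv_rev, inv_mul_cancel_right]
    exact Subgroup.inv_mem _ (Subgroup.zpow_mem _ (Subgroup.mem_zpowers h) j)
  refine ⟨rep, n, hn, hr, fun x j => ?_⟩
  apply hinj
  have h1 := hn (x * h ^ j)
  rw [hr] at h1
  apply mul_left_cancel (a := rep x)
  rw [h1, zpow_add, ← mul_assoc, hn]

/-- dots on the lines of finitely many elements of infinite order -/
theorem exists_dots {G : Type*} [Group G] {s : ℕ} (h : Fin s → G)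
    (hinf : ∀ q (n : ℤ), h q ^ n = 1 → n = 0) (F : Finset G) :
    ∃ (l : ℕ) (Y : Set G), (∀ y ∈ Y, ∀ y' ∈ Y, y⁻¹ * y' ∈ F → y = y') ∧
      ∀ q x, ∃ j : ℤ, 0 ≤ j ∧ j < 2 * l ∧ x * h q ^ j ∈ Y := by
  classical
  have hinj : ∀ q (i j : ℤ), h q ^ i = h q ^ j → i = j := by
    intro q i j hij
    have h1 : h q ^ (i - j) = 1 := by rw [zpow_sub, hij, mul_inv_cancel]
    have := hinf q _ h1
    omega
  choose rep n hn hrep hnj using fun q => exists_coord (h q) (hinf q)
  obtain ⟨F', hF'⟩ : ∃ F' : Finset G, F' = insert 1 F := ⟨_, rfl⟩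
  have h1F : (1 : G) ∈ F' := by rw [hF']; exact Finset.mem_insert_self _ _
  have hFF : ∀ g ∈ F, g ∈ F' := fun g hg => by rw [hF']; exact Finset.mem_insert_of_mem hg
  obtain ⟨l, hl⟩ : ∃ l : ℕ, l = 4 * s * F'.card ^ 4 + 1 := ⟨_, rfl⟩
  have hl0 : 0 < l := by omega
  have hlz : (0 : ℤ) < l := by exact_mod_cast hl0
  obtain ⟨pt, hpt⟩ : ∃ pt : Fin s × G × ℤ → Fin l → G, ∀ v t, pt v t =
      v.2.1 * h v.1 ^ (v.2.2 * l + ((t : ℕ) : ℤ)) := ⟨_, fun _ _ => rfl⟩
  obtain ⟨vr, hvr⟩ : ∃ vr : Fin s → G → Fin s × G × ℤ, ∀ q x, vr q x = (q, rep q x, n q x / l) :=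
    ⟨_, fun _ _ => rfl⟩
  have hptinj : ∀ v t t', pt v t = pt v t' → t = t' := by
    intro v t t' htt
    rw [hpt, hpt] at htt
    have := hinj _ _ _ (mul_left_cancel htt)
    apply Fin.ext
    omega
  have hpos : ∀ q x, ∃ t : Fin l, pt (vr q x) t = x := by
    intro q x
    have h1 := Int.emod_nonneg (n q x) hlz.ne'
    have h2 := Int.emod_lt_of_pos (n q x) hlz
    refine ⟨⟨(n q x % l).toNat, by omega⟩, ?_⟩
    rw [hpt, hvr]
    simp only
    rw [Int.toNat_of_nonneg h1, Int.mul_comm, Int.mul_ediv_add_emod, hn]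
  -- the local lemma
  obtain ⟨f, hf⟩ := Pool.Agent.Helper75.Apc.exists_assignment (V := Fin s × G × ℤ) (X := G) (L := l)
    (fun x => ((Finset.univ : Finset (Fin s)) ×ˢ F').image fun p => vr p.1 (x * p.2))
    (fun x v => Finset.univ.filter fun t => x⁻¹ * pt v t ∈ F')
    (fun v => ((Finset.univ : Finset (Fin l)) ×ˢ F').image fun p => pt v p.1 * p.2⁻¹)
    2 (s * F'.card) (l * F'.card) F'.card (by norm_num)
    (by
      intro x
      refine Finset.card_image_le.trans ?_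
      rw [Finset.card_product, Finset.card_univ, Fintype.card_fin])
    (by
      intro v
      refine Finset.card_image_le.trans ?_
      rw [Finset.card_product, Finset.card_univ, Fintype.card_fin])
    (by
      intro x v hv
      obtain ⟨⟨q, g⟩, hp, rfl⟩ := Finset.mem_image.1 hv
      have hg : g ∈ F' := (Finset.mem_product.1 hp).2
      obtain ⟨t, ht⟩ := hpos q (x * g)
      refine Finset.mem_image.2 ⟨(t, g), Finset.mem_product.2 ⟨Finset.mem_univ _, hg⟩, ?_⟩
      simp only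
      rw [ht, mul_inv_cancel_right])
    (by
      intro x v
      apply Finset.card_le_card_of_injOn (fun t => x⁻¹ * pt v t)
      · intro t ht
        exact (Finset.mem_filter.1 (Finset.mem_coe.1 ht)).2
      · intro t _ t' _ htt
        exact hptinj v t t' (mul_left_cancel htt))
    hl0
    (by
      have h1 : l * F'.card * (s * F'.card) ^ (2 - 1) * F'.card ^ 2 * 2 ^ 2 =
          l * (4 * s * F'.card ^ 4) := by
        ring
      rw [h1, pow_two]
      exact Nat.mul_le_mul_left _ (by omega))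
  refine ⟨l, {y | ∃ q, pt (vr q y) (f (vr q y)) = y}, ?_, ?_⟩
  · rintro y ⟨q, hq⟩ y' ⟨q', hq'⟩ hyy
    have h1 : vr q y ∈ (((Finset.univ : Finset (Fin s)) ×ˢ F').image fun p => vr p.1 (y * p.2)) :=
      Finset.mem_image.2 ⟨(q, 1), Finset.mem_product.2 ⟨Finset.mem_univ _, h1F⟩, by
        simp only [mul_one]⟩
    have h2 : vr q' y' ∈ (((Finset.univ : Finset (Fin s)) ×ˢ F').image fun p => vr p.1 (y * p.2)) :=
      Finset.mem_image.2 ⟨(q', y⁻¹ * y'), Finset.mem_product.2 ⟨Finset.mem_univ _, hFF _ hyy⟩, by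
        simp only [mul_inv_cancel_left]⟩
    have h3 := hf y
    by_contra hne
    have hne2 : vr q y ≠ vr q' y' := by
      intro he
      apply hne
      rw [← hq, ← hq', he]
    apply absurd h3
    rw [not_lt]
    refine Finset.one_lt_card.2 ⟨vr q y, Finset.mem_filter.2 ⟨h1, ?_⟩, vr q' y',
      Finset.mem_filter.2 ⟨h2, ?_⟩, hne2⟩
    · refine Finset.mem_filter.2 ⟨Finset.mem_univ _, ?_⟩
      rw [hq, inv_mul_cancel]
      exact h1F
    · refine Finset.mem_filter.2 ⟨Finset.mem_univ _, ?_⟩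
      rw [hq']
      exact hFF _ hyy
  · intro q x
    obtain ⟨v, hv⟩ : ∃ v : Fin s × G × ℤ, v = (q, rep q x, n q x / l + 1) := ⟨_, rfl⟩
    obtain ⟨j, hj⟩ : ∃ j : ℤ, j = (n q x / l + 1) * l + ((f v : ℕ) : ℤ) - n q x := ⟨_, rfl⟩
    have h1 : (n q x / l) * l ≤ n q x := Int.ediv_mul_le _ hlz.ne'
    have h2 : n q x < (n q x / l + 1) * l := Int.lt_ediv_add_one_mul_self _ hlz
    have h3 : ((f v : ℕ) : ℤ) < l := by exact_mod_cast (f v).2
    have h4 : (0 : ℤ) ≤ ((f v : ℕ) : ℤ) := Int.natCast_nonneg _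
    have h5 : (n q x / l + 1) * l = (n q x / l) * l + l := by ring
    have hjx : rep q x * h q ^ ((n q x / l + 1) * l + ((f v : ℕ) : ℤ)) = x * h q ^ j := by
      have h6 : (n q x / l + 1) * l + ((f v : ℕ) : ℤ) = n q x + j := by omega
      rw [h6, zpow_add, ← mul_assoc, hn]
    have hnn : n q (x * h q ^ j) / l = n q x / l + 1 := by
      rw [hnj]
      have h6 : n q x + j = ((f v : ℕ) : ℤ) + (n q x / l + 1) * l := by omega
      rw [h6, Int.add_mul_ediv_right _ _ hlz.ne', Int.ediv_eq_zero_of_lt h4 h3, zero_add]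
    have hvx : vr q (x * h q ^ j) = v := by
      rw [hvr, hrep, hnn, hv]
    refine ⟨j, by omega, by omega, q, ?_⟩
    rw [hvx, hpt]
    have hv1 : v.1 = q := by rw [hv]
    have hv2 : v.2.1 = rep q x := by rw [hv]
    have hv3 : v.2.2 = n q x / l + 1 := by rw [hv]
    rw [hv1, hv2, hv3, hjx]

/-- the two colours: near the dots, and the rest -/
theorem cyc_thick {G : Type*} [Group G] {s : ℕ} (h : Fin s → G)
    (hinf : ∀ q (n : ℤ), h q ^ n = 1 → n = 0) (T B : Finset G) :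
    ∃ (w : G → ℕ) (E : Finset G), (∀ x, w x ≤ 1) ∧ ∀ q i,
      Bdd {t | t ∈ T ∧ t ∈ Subgroup.zpowers (h q)} {x | ∃ b ∈ B, w (x * b) = i} E := by
  classical
  have hinj : ∀ q (i j : ℤ), h q ^ i = h q ^ j → i = j := by
    intro q i j hij
    have h1 : h q ^ (i - j) = 1 := by rw [zpow_sub, hij, mul_inv_cancel]
    have := hinf q _ h1
    omega
  -- a bound for the exponents
  obtain ⟨s₀, hs₀⟩ : ∃ s₀ : ℕ, ∀ q, ∀ t ∈ T, t ∈ Subgroup.zpowers (h q) →
      ∃ j : ℤ, |j| ≤ s₀ ∧ h q ^ j = t := by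
    have h1 : ∀ q t, ∃ j : ℤ, t ∈ Subgroup.zpowers (h q) → h q ^ j = t := by
      intro q t
      by_cases ht : t ∈ Subgroup.zpowers (h q)
      · obtain ⟨j, hj⟩ := Subgroup.mem_zpowers_iff.1 ht
        exact ⟨j, fun _ => hj⟩
      · exact ⟨0, fun h => absurd h ht⟩
    choose e he using h1
    refine ⟨((Finset.univ : Finset (Fin s)) ×ˢ T).sup fun p => (e p.1 p.2).natAbs, ?_⟩
    intro q t ht htz
    refine ⟨e q t, ?_, he q t htz⟩
    have h2 : (e q t).natAbs ≤ ((Finset.univ : Finset (Fin s)) ×ˢ T).sup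
        fun p => (e p.1 p.2).natAbs :=
      Finset.le_sup (f := fun p : Fin s × G => (e p.1 p.2).natAbs)
        (Finset.mem_product.2 ⟨Finset.mem_univ q, ht⟩ : (q, t) ∈ _)
    rw [Int.abs_eq_natAbs]
    exact_mod_cast h2
  -- the ball around a dot
  obtain ⟨Z, hZ⟩ : ∃ Z : Finset G, Z = ((Finset.univ : Finset (Fin s)) ×ˢ
      (Finset.Icc (-(s₀ : ℤ)) s₀) ×ˢ B).image fun p => h p.1 ^ p.2.1 * p.2.2 := ⟨_, rfl⟩
  have hZm : ∀ q (j : ℤ), |j| ≤ s₀ → ∀ b ∈ B, h q ^ j * b ∈ Z := by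
    intro q j hj b hb
    rw [hZ]
    rw [abs_le] at hj
    refine Finset.mem_image.2 ⟨(q, j, b), ?_, rfl⟩
    simp only [Finset.mem_product, Finset.mem_univ, Finset.mem_Icc, true_and]
    exact ⟨hj, hb⟩
  obtain ⟨F, hF⟩ : ∃ F : Finset G, F = (Z ×ˢ B ×ˢ T ×ˢ B ×ˢ Z).image
      fun p => p.1 * p.2.1⁻¹ * p.2.2.1 * p.2.2.2.1 * p.2.2.2.2⁻¹ := ⟨_, rfl⟩
  obtain ⟨l, Y, hY1, hY2⟩ := exists_dots h hinf F
  obtain ⟨w, hw⟩ : ∃ w : G → ℕ, ∀ z, w z = if ∃ y ∈ Y, y⁻¹ * z ∈ Z then 1 else 0 :=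
    ⟨_, fun _ => rfl⟩
  refine ⟨w, (((Finset.univ : Finset (Fin s)) ×ˢ (Finset.Icc (-(2 * l : ℤ)) (2 * l))).image
      fun p => h p.1 ^ p.2) ∪ (B ×ˢ Z ×ˢ Z ×ˢ B).image fun p => p.1 * p.2.1⁻¹ * p.2.2.1 * p.2.2.2⁻¹,
      ?_, ?_⟩
  · intro x
    rw [hw]
    split_ifs
    · exact le_rfl
    · exact Nat.zero_le _
  intro q i x hx z hxz
  rcases Nat.lt_or_ge i 1 with hi | hi
  · -- the colour `0`
    have hi0 : i = 0 := by omega
    subst hi0
    -- a point of the class is not near a dot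
    have hfar : ∀ (m d : ℤ), x * h q ^ m ∈ {x | ∃ b ∈ B, w (x * b) = 0} → x * h q ^ d ∈ Y →
        (s₀ : ℤ) < |m - d| := by
      intro m d hm hd
      by_contra hcon
      rw [not_lt] at hcon
      obtain ⟨b, hb, hwb⟩ := hm
      rw [hw] at hwb
      have hne : ¬ ∃ y ∈ Y, y⁻¹ * (x * h q ^ m * b) ∈ Z := by
        intro hex
        rw [if_pos hex] at hwb
        exact absurd hwb one_ne_zero
      apply hne
      refine ⟨_, hd, ?_⟩
      have e1 : (x * h q ^ d)⁻¹ * (x * h q ^ m * b) = h q ^ (m - d) * b := by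
        rw [mul_inv_rev, sub_eq_add_neg, add_comm m, zpow_add, zpow_neg]
        group
      rw [e1]
      exact hZm q _ hcon b hb
    obtain ⟨c, hc0, hcl, hcY⟩ := hY2 q x
    obtain ⟨a', ha0, hal, haY⟩ := hY2 q (x * h q ^ (-(2 * l : ℤ)))
    obtain ⟨a, ha⟩ : ∃ a : ℤ, a = -(2 * l : ℤ) + a' := ⟨_, rfl⟩
    have haY' : x * h q ^ a ∈ Y := by
      rw [ha, zpow_add, ← mul_assoc]
      exact haY
    have hx0 : x * h q ^ (0 : ℤ) ∈ {x | ∃ b ∈ B, w (x * b) = 0} := by
      rw [zpow_zero, mul_one]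
      exact hx
    have key : ∃ m : ℤ, a < m ∧ m < c ∧ z = x * h q ^ m := by
      refine (hxz.rec' (R := fun z => z ∈ {x | ∃ b ∈ B, w (x * b) = 0} ∧
        ∃ m : ℤ, a < m ∧ m < c ∧ z = x * h q ^ m) ⟨hx, 0, by omega, ?_, ?_⟩ ?_).2
      · have := hfar 0 c hx0 hcY
        rw [zero_sub, abs_neg, abs_of_nonneg hc0] at this
        omega
      · rw [zpow_zero, mul_one]
      · rintro u v _ ⟨hu, m, ham, hmc, rfl⟩ huv hv
        obtain ⟨j, hj, hjt⟩ := hs₀ q _ huv.1 huv.2
        refine ⟨hv, m + j, ?_, ?_, ?_⟩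
        · have := hfar m a hu haY'
          rw [abs_of_pos (by omega)] at this
          rw [abs_le] at hj
          omega
        · have := hfar m c hu hcY
          rw [abs_of_neg (by omega)] at this
          rw [abs_le] at hj
          omega
        · rw [zpow_add, hjt]
          group
    obtain ⟨m, ham, hmc, rfl⟩ := key
    rw [inv_mul_cancel_left]
    refine Finset.mem_union_left _ (Finset.mem_image.2 ⟨(q, m), ?_, rfl⟩)
    simp only [Finset.mem_product, Finset.mem_univ, Finset.mem_Icc, true_and]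
    omega
  · rcases Nat.lt_or_ge 1 i with hi2 | hi2
    · exfalso
      obtain ⟨b, -, hwb⟩ := hx
      rw [hw] at hwb
      split_ifs at hwb <;> omega
    · -- the colour `1`
      have hi1 : i = 1 := by omega
      subst hi1
      have hnear : ∀ x ∈ {x | ∃ b ∈ B, w (x * b) = 1}, ∃ y ∈ Y, ∃ u ∈ Z, ∃ b ∈ B,
          x = y * u * b⁻¹ := by
        rintro x ⟨b, hb, hwb⟩
        rw [hw] at hwb
        have hex : ∃ y ∈ Y, y⁻¹ * (x * b) ∈ Z := by
          by_contra hne
          rw [if_neg hne] at hwb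
          exact absurd hwb zero_ne_one
        obtain ⟨y, hy, hyZ⟩ := hex
        exact ⟨y, hy, _, hyZ, b, hb, by group⟩
      obtain ⟨y, hy, u, hu, b, hb, hxy⟩ := hnear x hx
      have key : ∃ u' ∈ Z, ∃ b' ∈ B, z = y * u' * b'⁻¹ := by
        refine hxz.rec' (R := fun z => ∃ u' ∈ Z, ∃ b' ∈ B, z = y * u' * b'⁻¹)
          ⟨u, hu, b, hb, hxy⟩ ?_
        rintro c d _ ⟨u', hu', b', hb', hc⟩ hcd hd
        obtain ⟨y'', hy'', u'', hu'', b'', hb'', hd'⟩ := hnear d hd
        have hyy : y = y'' := by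
          apply hY1 y hy y'' hy''
          rw [hF]
          refine Finset.mem_image.2 ⟨(u', b', c⁻¹ * d, b'', u''), ?_, ?_⟩
          · simp only [Finset.mem_product]
            exact ⟨hu', hb', hcd.1, hb'', hu''⟩
          · simp only
            rw [hc, hd']
            group
        rw [← hyy] at hd'
        exact ⟨u'', hu'', b'', hb'', hd'⟩
      obtain ⟨u', hu', b', hb', hz⟩ := key
      refine Finset.mem_union_right _ (Finset.mem_image.2 ⟨(b, u, u', b'), ?_, ?_⟩)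
      · simp only [Finset.mem_product]
        exact ⟨hb, hu, hu', hb'⟩
      · simp only
        rw [hxy, hz]
        group

end Pool.Agent.Helper74.RT
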