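import Pool.Agent.Helper80.TM.Mix

/-!
# RT (MP_2c6f0d_gt, thread TH-H): relatively tame subgroups. Definitions

`nb P D π`: the `D`-neighbourhood of the coset `π` of one of the subgroups `P q`.
`Peri K C L B m P`: the finite family `P` of subgroups of `L` is almost malnormal in `L`, has linearly many
contacts, contains up to conjugation in `L` every infinite `L ∩ b L b⁻¹`, `b ∈ B`, `b ∉ C`, and there
are maps to `{0, ..., m}` whose thickened classes are bounded along all `P q` at once.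
-/

set_option autoImplicit false

namespace Pool.Agent.Helper74.RT

open Pool.Agent.Helper65.TH
open Pool.Agent.Helper65.GN (Bdd Sep)

variable {G : Type*} [Group G]

/-- the `D`-neighbourhood of a coset -/
def nb {s : ℕ} (P : Fin s → Subgroup G) (D : Finset G) (π : (q : Fin s) × (G ⧸ P q)) : Set G :=
  {x | ∃ d ∈ D, ((x * d : G) : G ⧸ P π.1) = π.2}

open Classical in
/-- peripheral families -/
structure Peri (K C L : Subgroup G) (B : Finset G) (m : ℕ) {s : ℕ} (P : Fin s → Subgroup G) :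
    Prop where
  le : ∀ q, P q ≤ L
  mal : ∀ q q', ∀ l ∈ L, {x | x ∈ P q ∧ l⁻¹ * x * l ∈ P q'}.Infinite → q = q' ∧ l ∈ P q
  con : ∀ D : Finset G, (∀ d ∈ D, d ∈ L) → ∃ ω : ℕ, ∀ Q : Finset ((q : Fin s) × (G ⧸ P q)),
    ((Q ×ˢ Q).filter fun z => z.1 ≠ z.2 ∧ (nb P D z.1 ∩ nb P D z.2).Nonempty).card ≤ ω * Q.card
  cov : ∀ b ∈ B, b ∉ C → {x | x ∈ L ∧ b⁻¹ * x * b ∈ L}.Finite ∨
    ∃ q, ∃ l ∈ L, ∀ x ∈ L, b⁻¹ * x * b ∈ L → l⁻¹ * x * l ∈ P q
  thick : ∀ T B' : Finset G, (∀ b ∈ B', b ∈ K) → ∃ (w : G → ℕ) (E : Finset G), (∀ x, w x ≤ m) ∧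
    ∀ q i, Bdd {t | t ∈ T ∧ t ∈ P q} {x | ∃ b ∈ B', w (x * b) = i} E

end Pool.Agent.Helper74.RT
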