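import Pool.Agent.Helper74.RT.Defs

/-!
# RT-01: the neighbourhoods of two different peripheral cosets have a bounded intersection
-/

set_option autoImplicit false

namespace Pool.Agent.Helper74.RT

variable {G : Type*} [Group G]

/-- points of two neighbourhoods, relative to a fixed one -/
private theorem fin_pairs {L : Subgroup G} {s : ℕ} (P : Fin s → Subgroup G)
    (mal : ∀ q q', ∀ l ∈ L, {x | x ∈ P q ∧ l⁻¹ * x * l ∈ P q'}.Infinite → q = q' ∧ l ∈ P q)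
    (q q' : Fin s) (g h : G) (hg : g ∈ L) (hne : ¬ (q = q' ∧ g ∈ P q)) :
    {y | y ∈ P q ∧ g⁻¹ * y * h ∈ P q'}.Finite := by
  rcases Set.eq_empty_or_nonempty {y | y ∈ P q ∧ g⁻¹ * y * h ∈ P q'} with hE | ⟨y₀, hy₀⟩
  · rw [hE]
    exact Set.finite_empty
  · have hfin : {x | x ∈ P q ∧ g⁻¹ * x * g ∈ P q'}.Finite := by
      by_contra hcon
      exact hne (mal q q' g hg hcon)
    refine (hfin.image (fun x => x * y₀)).subset ?_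
    rintro y ⟨hy1, hy2⟩
    refine ⟨y * y₀⁻¹, ⟨(P q).mul_mem hy1 ((P q).inv_mem hy₀.1), ?_⟩, by
      show y * y₀⁻¹ * y₀ = y
      group⟩
    have h1 : g⁻¹ * (y * y₀⁻¹) * g = (g⁻¹ * y * h) * (g⁻¹ * y₀ * h)⁻¹ := by group
    rw [h1]
    exact (P q').mul_mem hy2 ((P q').inv_mem hy₀.2)

theorem inter_bound {L : Subgroup G} {s : ℕ} (P : Fin s → Subgroup G)
    (mal : ∀ q q', ∀ l ∈ L, {x | x ∈ P q ∧ l⁻¹ * x * l ∈ P q'}.Infinite → q = q' ∧ l ∈ P q)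
    (D : Finset G) (hD : ∀ d ∈ D, d ∈ L) :
    ∃ c : ℕ, ∀ π π' : (q : Fin s) × (G ⧸ P q), π ≠ π' →
      ∀ X : Finset G, (∀ x ∈ X, x ∈ nb P D π ∧ x ∈ nb P D π') → X.card ≤ c := by
  classical
  -- the finite set of the differences
  obtain ⟨Z, hZ⟩ : ∃ Z : Finset G, ∀ (q q' : Fin s), ∀ d₀ ∈ D, ∀ d₀' ∈ D, ∀ d ∈ D, ∀ d' ∈ D,
      ¬ (q = q' ∧ d₀⁻¹ * d₀' ∈ P q) → ∀ y, y ∈ P q →
        (d₀⁻¹ * d₀')⁻¹ * y * (d⁻¹ * d') ∈ P q' → y ∈ Z := by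
    have hfin : ({y | ∃ z : (Fin s × Fin s) × (G × G) × (G × G), (z.2.1.1 ∈ D ∧ z.2.1.2 ∈ D ∧
        z.2.2.1 ∈ D ∧ z.2.2.2 ∈ D) ∧ ¬ (z.1.1 = z.1.2 ∧ z.2.1.1⁻¹ * z.2.1.2 ∈ P z.1.1) ∧
        y ∈ P z.1.1 ∧ (z.2.1.1⁻¹ * z.2.1.2)⁻¹ * y * (z.2.2.1⁻¹ * z.2.2.2) ∈ P z.1.2} : Set G).Finite := by
      have h1 : ({y | ∃ z : (Fin s × Fin s) × (G × G) × (G × G), (z.2.1.1 ∈ D ∧ z.2.1.2 ∈ D ∧
          z.2.2.1 ∈ D ∧ z.2.2.2 ∈ D) ∧ ¬ (z.1.1 = z.1.2 ∧ z.2.1.1⁻¹ * z.2.1.2 ∈ P z.1.1) ∧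
          y ∈ P z.1.1 ∧ (z.2.1.1⁻¹ * z.2.1.2)⁻¹ * y * (z.2.2.1⁻¹ * z.2.2.2) ∈ P z.1.2} : Set G) ⊆
          ⋃ z ∈ ((Finset.univ : Finset (Fin s × Fin s)) ×ˢ ((D ×ˢ D) ×ˢ (D ×ˢ D))).filter
            (fun z => ¬ (z.1.1 = z.1.2 ∧ z.2.1.1⁻¹ * z.2.1.2 ∈ P z.1.1)),
            {y | y ∈ P z.1.1 ∧ (z.2.1.1⁻¹ * z.2.1.2)⁻¹ * y * (z.2.2.1⁻¹ * z.2.2.2) ∈ P z.1.2} := by
        rintro y ⟨z, ⟨h1, h2, h3, h4⟩, hne, hy1, hy2⟩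
        refine Set.mem_biUnion (x := z) ?_ ⟨hy1, hy2⟩
        rw [Finset.mem_coe, Finset.mem_filter]
        refine ⟨?_, hne⟩
        simp only [Finset.mem_product, Finset.mem_univ, true_and]
        exact ⟨⟨h1, h2⟩, h3, h4⟩
      refine Set.Finite.subset (Set.Finite.biUnion (Finset.finite_toSet _) ?_) h1
      intro z hz
      rw [Finset.mem_coe, Finset.mem_filter] at hz
      simp only [Finset.mem_product, Finset.mem_univ, true_and] at hz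
      exact fin_pairs P mal _ _ _ _ (L.mul_mem (L.inv_mem (hD _ hz.1.1.1)) (hD _ hz.1.1.2)) hz.2
    refine ⟨hfin.toFinset, ?_⟩
    intro q q' d₀ h0 d₀' h0' d hd d' hd' hne y hy1 hy2
    rw [Set.Finite.mem_toFinset]
    exact ⟨((q, q'), (d₀, d₀'), (d, d')), ⟨h0, h0', hd, hd'⟩, hne, hy1, hy2⟩
  refine ⟨(Z ×ˢ D).card, ?_⟩
  rintro ⟨q, π⟩ ⟨q', π'⟩ hne X hX
  rcases X.eq_empty_or_nonempty with rfl | ⟨x₀, hx₀⟩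
  · simp
  obtain ⟨⟨d₀, hd₀, e0⟩, ⟨d₀', hd₀', e0'⟩⟩ := hX x₀ hx₀
  change ((x₀ * d₀ : G) : G ⧸ P q) = π at e0
  change ((x₀ * d₀' : G) : G ⧸ P q') = π' at e0'
  have hne' : ¬ (q = q' ∧ d₀⁻¹ * d₀' ∈ P q) := by
    rintro ⟨rfl, h⟩
    apply hne
    have h1 : ((x₀ * d₀ : G) : G ⧸ P q) = ((x₀ * d₀' : G) : G ⧸ P q) := by
      rw [QuotientGroup.eq]
      have : (x₀ * d₀)⁻¹ * (x₀ * d₀') = d₀⁻¹ * d₀' := by group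
      rwa [this]
    rw [← e0, ← e0', h1]
  have hch : ∀ x ∈ X, ∃ d ∈ D, (x₀ * d₀)⁻¹ * (x * d) ∈ Z := by
    intro x hx
    obtain ⟨⟨d, hd, e1⟩, ⟨d', hd', e1'⟩⟩ := hX x hx
    change ((x * d : G) : G ⧸ P q) = π at e1
    change ((x * d' : G) : G ⧸ P q') = π' at e1'
    have h1 : (x₀ * d₀)⁻¹ * (x * d) ∈ P q := QuotientGroup.eq.1 (e0.trans e1.symm)
    have h2 : (x₀ * d₀')⁻¹ * (x * d') ∈ P q' := QuotientGroup.eq.1 (e0'.trans e1'.symm)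
    refine ⟨d, hd, hZ q q' d₀ hd₀ d₀' hd₀' d hd d' hd' hne' _ h1 ?_⟩
    have h3 : (d₀⁻¹ * d₀')⁻¹ * ((x₀ * d₀)⁻¹ * (x * d)) * (d⁻¹ * d') = (x₀ * d₀')⁻¹ * (x * d') := by
      group
    rwa [h3]
  choose! δ hδ using hch
  refine Finset.card_le_card_of_injOn (fun x => ((x₀ * d₀)⁻¹ * (x * δ x), δ x)) ?_ ?_
  · intro x hx
    exact Finset.mem_coe.2 (Finset.mem_product.2 ⟨(hδ x (Finset.mem_coe.1 hx)).2,
      (hδ x (Finset.mem_coe.1 hx)).1⟩)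
  · intro x _ y _ hxy
    obtain ⟨h1, h2⟩ := Prod.mk.inj hxy
    rw [h2] at h1
    exact mul_right_cancel (mul_left_cancel h1)

end Pool.Agent.Helper74.RT
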