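import Pool.Agent.Helper74.RT.Defs

/-!
# RT-02: the peripheral coset of a foreign point

For `b ∈ B`, `b ∉ C` every point `x` has a key: nothing, if `L ∩ b L b⁻¹` is finite, and otherwise the coset
`x l P q`, where `L ∩ b L b⁻¹ ⊆ l P q l⁻¹`. The key depends on `b` and the leaf of `x b` only.
-/

set_option autoImplicit false

namespace Pool.Agent.Helper74.RT

open Pool.Agent.Helper65.TH
open Pool.Agent.Helper65.GN (Bdd Sep)

variable {G : Type*} [Group G]

theorem exists_keys {K C L : Subgroup G} {B : Finset G} {m s : ℕ} {P : Fin s → Subgroup G}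
    (h : Peri K C L B m P) :
    ∃ (key : G → G → Option ((q : Fin s) × (G ⧸ P q))) (D : Finset G) (c : ℕ),
      (∀ d ∈ D, d ∈ L) ∧
      (∀ b ∈ B, b ∉ C → ∀ x π, key b x = some π → x ∈ nb P D π) ∧
      (∀ b ∈ B, b ∉ C → ∀ x x', x⁻¹ * x' ∈ L → (x * b)⁻¹ * (x' * b) ∈ L → key b x = key b x') ∧
      ∀ b ∈ B, b ∉ C → ∀ x, key b x = none → ∀ X : Finset G,
        (∀ y ∈ X, ∀ y' ∈ X, y⁻¹ * y' ∈ L ∧ (y * b)⁻¹ * (y' * b) ∈ L) → X.card ≤ c := by
  classical
  -- the conjugators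
  have hch : ∀ b : G, ∃ (o : Option (Fin s × G)), (b ∈ B → b ∉ C →
      (o = none → {x | x ∈ L ∧ b⁻¹ * x * b ∈ L}.Finite) ∧
      ∀ z, o = some z → z.2 ∈ L ∧ ∀ x ∈ L, b⁻¹ * x * b ∈ L → z.2⁻¹ * x * z.2 ∈ P z.1) := by
    intro b
    by_cases hb : b ∈ B
    · by_cases hbC : b ∈ C
      · exact ⟨none, fun _ h => absurd hbC h⟩
      · rcases h.cov b hb hbC with hfin | ⟨q, l, hl, hx⟩
        · refine ⟨none, fun _ _ => ⟨fun _ => hfin, fun z hz => ?_⟩⟩
          cases hz
        · refine ⟨some (q, l), fun _ _ => ⟨fun h => ?_, fun z hz => ?_⟩⟩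
          · cases h
          · cases hz
            exact ⟨hl, hx⟩
    · exact ⟨none, fun h => absurd h hb⟩
  choose o ho using hch
  let key : G → G → Option ((q : Fin s) × (G ⧸ P q)) := fun b x =>
    (o b).map fun z => ⟨z.1, ((x * z.2 : G) : G ⧸ P z.1)⟩
  let D : Finset G := (B.filter fun b => b ∉ C).biUnion fun b => ((o b).map Prod.snd).toFinset
  have hD : ∀ b ∈ B, b ∉ C → ∀ z, o b = some z → z.2 ∈ D := by
    intro b hb hbC z hz
    refine Finset.mem_biUnion.2 ⟨b, Finset.mem_filter.2 ⟨hb, hbC⟩, ?_⟩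
    rw [hz]
    simp
  have hfinb : ∀ b : G, ∃ c : ℕ, b ∈ B → b ∉ C → o b = none → ∀ X : Finset G,
      (∀ y ∈ X, ∀ y' ∈ X, y⁻¹ * y' ∈ L ∧ (y * b)⁻¹ * (y' * b) ∈ L) → X.card ≤ c := by
    intro b
    by_cases hb : b ∈ B ∧ b ∉ C ∧ o b = none
    · obtain ⟨hb1, hb2, hb3⟩ := hb
      have hfin := (ho b hb1 hb2).1 hb3
      refine ⟨hfin.toFinset.card, fun _ _ _ X hX => ?_⟩
      rcases X.eq_empty_or_nonempty with rfl | ⟨x₀, hx₀⟩
      · simp
      refine Finset.card_le_card_of_injOn (fun y => x₀⁻¹ * y) ?_ ?_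
      · intro y hy
        obtain ⟨h1, h2⟩ := hX x₀ hx₀ y (Finset.mem_coe.1 hy)
        refine Finset.mem_coe.2 ((Set.Finite.mem_toFinset _).2 ⟨h1, ?_⟩)
        have h3 : b⁻¹ * (x₀⁻¹ * y) * b = (x₀ * b)⁻¹ * (y * b) := by group
        rw [h3]
        exact h2
      · intro y _ y' _ hyy'
        exact mul_left_cancel hyy'
    · exact ⟨0, fun h1 h2 h3 => absurd ⟨h1, h2, h3⟩ hb⟩
  choose c hc using hfinb
  refine ⟨key, D, ∑ b ∈ B, c b, ?_, ?_, ?_, ?_⟩
  · intro d hd
    obtain ⟨b, hb, hd⟩ := Finset.mem_biUnion.1 hd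
    obtain ⟨hb, hbC⟩ := Finset.mem_filter.1 hb
    rcases hob : o b with _ | z
    · rw [hob] at hd
      simp at hd
    · rw [hob] at hd
      have h1 : d = z.2 := by simpa using hd
      rw [h1]
      exact ((ho b hb hbC).2 z hob).1
  · intro b hb hbC x π hπ
    rcases hob : o b with _ | z
    · simp [key, hob] at hπ
    · simp only [key, hob, Option.map_some] at hπ
      have h1 : (⟨z.1, ((x * z.2 : G) : G ⧸ P z.1)⟩ : (q : Fin s) × (G ⧸ P q)) = π := by
        injection hπ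
      rw [← h1]
      exact ⟨z.2, hD b hb hbC z hob, rfl⟩
  · intro b hb hbC x x' hx hx'
    rcases hob : o b with _ | z
    · simp [key, hob]
    · obtain ⟨hz, hzx⟩ := (ho b hb hbC).2 z hob
      have h1 : z.2⁻¹ * (x⁻¹ * x') * z.2 ∈ P z.1 := by
        apply hzx _ hx
        have : b⁻¹ * (x⁻¹ * x') * b = (x * b)⁻¹ * (x' * b) := by group
        rw [this]
        exact hx'
      have h2 : ((x * z.2 : G) : G ⧸ P z.1) = ((x' * z.2 : G) : G ⧸ P z.1) := by
        rw [QuotientGroup.eq]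
        have : (x * z.2)⁻¹ * (x' * z.2) = z.2⁻¹ * (x⁻¹ * x') * z.2 := by group
        rw [this]
        exact h1
      simp only [key, hob, Option.map_some, h2]
  · intro b hb hbC x hx X hX
    have hob : o b = none := by
      rcases hob : o b with _ | z
      · rfl
      · simp [key, hob] at hx
    exact (hc b hb hbC hob X hX).trans (Finset.single_le_sum (fun _ _ => Nat.zero_le _) hb)

end Pool.Agent.Helper74.RT
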