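import Pool.Agent.Helper74.RT.Defs

/-!
# RT-05: runs of a path inside a bounded set, and near a peripheral coset
-/

set_option autoImplicit false

namespace Pool.Agent.Helper74.RT

open Pool.Agent.Helper65.TH
open Pool.Agent.Helper65.GN (Bdd Sep)
open Pool.Agent.Helper80.PP

variable {G : Type*} [Group G]

open Classical in
theorem path_sp (T : Finset G) (p : ℕ → G) (m : ℕ)
    (hs : ∀ j, j + 1 < m → (p j)⁻¹ * p (j + 1) ∈ T) (f i j : ℕ) (hij : i ≤ j) (hj : j < m)
    (hf : j ≤ i + f) : (p i)⁻¹ * p j ∈ Sp (insert 1 T) f := by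
  have h1 : ∀ k i, i + k < m → (p i)⁻¹ * p (i + k) ∈ Sp (insert 1 T) k := by
    intro k
    induction k with
    | zero =>
      intro i _
      rw [Sp, Finset.mem_singleton]
      simp
    | succ k ih =>
      intro i hi
      have h2 := ih (i + 1) (by omega)
      have h3 : (p i)⁻¹ * p (i + 1) ∈ insert 1 T :=
        Finset.mem_insert_of_mem (hs i (by omega))
      have h4 := sp_mul_left h3 h2
      have h5 : (p i)⁻¹ * p (i + 1) * ((p (i + 1))⁻¹ * p (i + 1 + k)) =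
          (p i)⁻¹ * p (i + (k + 1)) := by
        have : i + 1 + k = i + (k + 1) := by omega
        rw [this]
        group
      rwa [h5] at h4
  obtain ⟨k, rfl⟩ := Nat.exists_eq_add_of_le hij
  exact sp_mono (Finset.mem_insert_self _ _) (by omega) (h1 k i hj)

theorem path_mem (T : Finset G) (L : Subgroup G) (hT : ∀ t ∈ T, t ∈ L) (p : ℕ → G) (m : ℕ)
    (hs : ∀ j, j + 1 < m → (p j)⁻¹ * p (j + 1) ∈ T) (i j : ℕ) (hi : i < m) (hj : j < m) :
    (p i)⁻¹ * p j ∈ L := by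
  classical
  have hT' : ∀ a ∈ insert 1 T, a ∈ L := by
    intro a ha
    rcases Finset.mem_insert.1 ha with rfl | ha
    · exact L.one_mem
    · exact hT a ha
  rcases le_total i j with h | h
  · exact sp_sub hT' (path_sp T p m hs m i j h hj (by omega))
  · have h1 := L.inv_mem (sp_sub hT' (path_sp T p m hs m j i h hi (by omega)))
    rwa [mul_inv_rev, inv_inv] at h1

/-- a run of different points of a path inside a set with bounded chains -/
theorem run_card (F A : Set G) (E : Finset G) (hb : Bdd F A E) (x : ℕ → G) (u g : ℕ)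
    (hs : ∀ j, u ≤ j → j + 1 < u + g → (x j)⁻¹ * x (j + 1) ∈ F)
    (hA : ∀ j, u ≤ j → j < u + g → x j ∈ A) :
    ∀ j, u ≤ j → j < u + g → (x u)⁻¹ * x j ∈ E := by
  intro j hj hj'
  have h1 : ∀ k, u + k < u + g → Chain F (fun b => b ∈ A) (x u) (x (u + k)) := by
    intro k
    induction k with
    | zero =>
      intro _
      exact Chain.refl _ _ _
    | succ k ih =>
      intro hk
      exact (ih (by omega)).step (hs (u + k) (by omega) (by omega)) (hA _ (by omega) hk)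
  obtain ⟨k, rfl⟩ := Nat.exists_eq_add_of_le hj
  exact hb (x u) (hA u le_rfl (by omega)) _ (h1 k hj')

open Classical in
/-- at most `E.card * D.card` points of a run near one peripheral coset -/
theorem near_run {s : ℕ} (P : Fin s → Subgroup G) (T B D E : Finset G) (w : G → ℕ) (i : ℕ)
    (π : (q : Fin s) × (G ⧸ P q))
    (hb : Bdd {t | t ∈ ((D ×ˢ T ×ˢ D).image fun z => z.1⁻¹ * z.2.1 * z.2.2) ∧ t ∈ P π.1}
      {x | ∃ b ∈ (D ×ˢ B).image (fun z => z.1⁻¹ * z.2), w (x * b) = i} E)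
    (p β : ℕ → G) (u g : ℕ)
    (hs : ∀ j, u ≤ j → j + 1 < u + g → (p j)⁻¹ * p (j + 1) ∈ T)
    (hβ : ∀ j, u ≤ j → j < u + g → β j ∈ B)
    (hw : ∀ j, u ≤ j → j < u + g → w (p j * β j) = i)
    (hinj : ∀ j, u ≤ j → j < u + g → ∀ j', u ≤ j' → j' < u + g → p j = p j' → j = j')
    (hn : ∀ j, u ≤ j → j < u + g → p j ∈ nb P D π) : g ≤ E.card * D.card := by
  have hch : ∀ j, ∃ d, u ≤ j → j < u + g → d ∈ D ∧ ((p j * d : G) : G ⧸ P π.1) = π.2 := by
    intro j
    by_cases h : u ≤ j ∧ j < u + g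
    · obtain ⟨d, hd, hd'⟩ := hn j h.1 h.2
      exact ⟨d, fun _ _ => ⟨hd, hd'⟩⟩
    · exact ⟨1, fun h1 h2 => absurd ⟨h1, h2⟩ h⟩
  choose d hd using hch
  have hrun := run_card _ _ E hb (fun j => p j * d j) u g (by
    intro j hj hj'
    obtain ⟨h1, h2⟩ := hd j hj (by omega)
    obtain ⟨h3, h4⟩ := hd (j + 1) (by omega) hj'
    refine ⟨Finset.mem_image.2 ⟨(d j, (p j)⁻¹ * p (j + 1), d (j + 1)), ?_, ?_⟩,
      QuotientGroup.eq.1 (h2.trans h4.symm)⟩
    · simp only [Finset.mem_product]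
      exact ⟨h1, hs j hj hj', h3⟩
    · show (d j)⁻¹ * ((p j)⁻¹ * p (j + 1)) * d (j + 1) = (p j * d j)⁻¹ * (p (j + 1) * d (j + 1))
      group) (by
    intro j hj hj'
    obtain ⟨h1, h2⟩ := hd j hj hj'
    refine ⟨(d j)⁻¹ * β j, Finset.mem_image.2 ⟨(d j, β j), Finset.mem_product.2
      ⟨h1, hβ j hj hj'⟩, rfl⟩, ?_⟩
    have : p j * d j * ((d j)⁻¹ * β j) = p j * β j := by group
    rw [this]
    exact hw j hj hj')
  have h1 : (Finset.Ico u (u + g)).card ≤ (E ×ˢ D).card := by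
    refine Finset.card_le_card_of_injOn (fun j => ((p u * d u)⁻¹ * (p j * d j), d j)) ?_ ?_
    · intro j hj
      obtain ⟨h1, h2⟩ := Finset.mem_Ico.1 (Finset.mem_coe.1 hj)
      exact Finset.mem_coe.2 (Finset.mem_product.2 ⟨hrun j h1 h2, (hd j h1 h2).1⟩)
    · intro j hj j' hj' hjj
      obtain ⟨h1, h2⟩ := Finset.mem_Ico.1 (Finset.mem_coe.1 hj)
      obtain ⟨h3, h4⟩ := Finset.mem_Ico.1 (Finset.mem_coe.1 hj')
      obtain ⟨h5, h6⟩ := Prod.mk.inj hjj
      rw [h6] at h5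
      exact hinj j h1 h2 j' h3 h4 (mul_right_cancel (mul_left_cancel h5))
  rw [Nat.card_Ico, Finset.card_product] at h1
  omega

end Pool.Agent.Helper74.RT
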