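import Mathlib

/-!
# RT-03: every long window of the path contains a break. MATHLIB ONLY
-/

set_option autoImplicit false

namespace Pool.Agent.Helper74.RT

theorem exists_break {κ : Type*} (m f g : ℕ) (foreign : ℕ → Prop) (key : ℕ → Option κ)
    (near : ℕ → κ → Prop)
    (h1 : ∀ u, u + f ≤ m → ∃ j, u ≤ j ∧ j < u + f ∧ foreign j)
    (h2 : ∀ u π, u + g ≤ m → ¬ ∀ k, u ≤ k → k < u + g → near k π)
    (h3 : ∀ k j π, k ≤ j → j < k + f → j < m → foreign j → key j = some π → near k π)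
    (u : ℕ) (hu : u + (g + 2 * f) ≤ m) :
    ∃ j, u ≤ j ∧ j < u + (g + 2 * f) ∧ foreign j ∧ (key j = none ∨ ∃ π, key j = some π ∧
      ∃ j', j < j' ∧ j' ≤ j + f ∧ j' < m ∧ foreign j' ∧ ∃ π', key j' = some π' ∧ π' ≠ π) := by
  by_contra hcon
  push Not at hcon
  obtain ⟨j₀, hj0, hj0', hf0⟩ := h1 u (by omega)
  obtain ⟨hk0, -⟩ := hcon j₀ hj0 (by omega) hf0
  obtain ⟨π₀, hπ₀⟩ := Option.ne_none_iff_exists'.1 hk0
  have key₀ : ∀ j, j₀ ≤ j → j < u + (g + 2 * f) → foreign j → key j = some π₀ := by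
    intro j
    induction j using Nat.strong_induction_on with
    | _ j ih =>
      intro hj hj' hfj
      rcases Nat.eq_or_lt_of_le hj with rfl | hlt
      · exact hπ₀
      · obtain ⟨j₁, h4, h5, h6, h7⟩ : ∃ j₁, j₀ ≤ j₁ ∧ j₁ < j ∧ j ≤ j₁ + f ∧ foreign j₁ := by
          by_cases hjf : j₀ + f ≤ j
          · obtain ⟨j₁, h4, h5, h6⟩ := h1 (j - f) (by omega)
            exact ⟨j₁, by omega, by omega, by omega, h6⟩
          · exact ⟨j₀, le_rfl, hlt, by omega, hf0⟩
        have h8 := ih j₁ h5 h4 (by omega) h7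
        obtain ⟨-, h9⟩ := hcon j₁ (by omega) (by omega) h7
        obtain ⟨h10, -⟩ := hcon j (by omega) hj' hfj
        obtain ⟨π', hπ'⟩ := Option.ne_none_iff_exists'.1 h10
        have h11 := h9 π₀ h8 j h5 h6 (by omega) hfj π' hπ'
        rw [hπ', h11]
  refine h2 j₀ π₀ (by omega) ?_
  intro k hk hk'
  obtain ⟨j, h4, h5, h6⟩ := h1 k (by omega)
  exact h3 k j π₀ h4 h5 (by omega) h6 (key₀ j (by omega) (by omega) h6)

open Classical in
theorem card_breaks (m e r : ℕ) (Br : ℕ → Prop)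
    (h : ∀ u, u + e ≤ m → ∃ j, u ≤ j ∧ j < u + e ∧ Br j) (hm : r * e ≤ m) :
    r ≤ ((Finset.range m).filter Br).card := by
  have hch : ∀ i, ∃ j, i < r → i * e ≤ j ∧ j < i * e + e ∧ Br j := by
    intro i
    by_cases hi : i < r
    · have h1 : (i + 1) * e ≤ r * e := Nat.mul_le_mul_right _ hi
      obtain ⟨j, h2⟩ := h (i * e) (by nlinarith)
      exact ⟨j, fun _ => h2⟩
    · exact ⟨0, fun h => absurd h hi⟩
  choose j hj using hch
  have h1 : (Finset.range r).card ≤ ((Finset.range m).filter Br).card := by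
    refine Finset.card_le_card_of_injOn j ?_ ?_
    · intro i hi
      have hi' := Finset.mem_range.1 (Finset.mem_coe.1 hi)
      obtain ⟨h2, h3, h4⟩ := hj i hi'
      have h5 : (i + 1) * e ≤ r * e := Nat.mul_le_mul_right _ hi'
      refine Finset.mem_coe.2 (Finset.mem_filter.2 ⟨Finset.mem_range.2 ?_, h4⟩)
      nlinarith
    · intro i hi i' hi' hii
      have hi1 := Finset.mem_range.1 (Finset.mem_coe.1 hi)
      have hi2 := Finset.mem_range.1 (Finset.mem_coe.1 hi')
      obtain ⟨h2, h3, -⟩ := hj i hi1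
      obtain ⟨h4, h5, -⟩ := hj i' hi2
      rw [hii] at h2 h3
      by_contra hne
      rcases Nat.lt_or_gt_of_ne hne with hlt | hlt
      · have : (i + 1) * e ≤ i' * e := Nat.mul_le_mul_right _ hlt
        nlinarith
      · have : (i' + 1) * e ≤ i * e := Nat.mul_le_mul_right _ hlt
        nlinarith
  rwa [Finset.card_range] at h1

end Pool.Agent.Helper74.RT
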