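import Pool.Agent.Helper74.RT.Inter
import Pool.Agent.Helper74.RT.Keys
import Pool.Agent.Helper74.RT.Runs
import Pool.Agent.Helper74.RT.CountB
import Pool.Agent.Helper74.RT.Paths

/-!
# RT-06: relatively tame extensions
-/

set_option autoImplicit false

namespace Pool.Agent.Helper74.RT

open Pool.Agent.Helper65.TH
open Pool.Agent.Helper65.GN (Bdd Sep)
open Pool.Agent.Helper80.PP
open Pool.Agent.Helper80.TM (MixSep Lin)

variable {G : Type*} [Group G]

open Classical in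
/-- representatives of different leaves -/
private theorem choose_leaves (L : Subgroup G) (x : ℕ → G) (M r : ℕ)
    (h : r ≤ ((Finset.range M).image fun j => ((x j : G) : G ⧸ L)).card) :
    ∃ I : Finset ℕ, I.card = r ∧ (∀ j ∈ I, j < M) ∧
      ∀ j ∈ I, ∀ j' ∈ I, j ≠ j' → (x j)⁻¹ * x j' ∉ L := by
  obtain ⟨V, hV, hVc⟩ := Finset.exists_subset_card_eq h
  have hch : ∀ v : G ⧸ L, ∃ j, v ∈ V → j < M ∧ ((x j : G) : G ⧸ L) = v := by
    intro v
    by_cases hv : v ∈ V
    · obtain ⟨j, hj, hjv⟩ := Finset.mem_image.1 (hV hv)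
      exact ⟨j, fun _ => ⟨Finset.mem_range.1 hj, hjv⟩⟩
    · exact ⟨0, fun h => absurd h hv⟩
  choose j hj using hch
  refine ⟨V.image j, ?_, ?_, ?_⟩
  · rw [Finset.card_image_of_injOn, hVc]
    intro v hv v' hv' hvv
    rw [← (hj v (Finset.mem_coe.1 hv)).2, ← (hj v' (Finset.mem_coe.1 hv')).2, hvv]
  · intro a ha
    obtain ⟨v, hv, rfl⟩ := Finset.mem_image.1 ha
    exact (hj v hv).1
  · intro a ha a' ha' hne hL
    obtain ⟨v, hv, rfl⟩ := Finset.mem_image.1 ha
    obtain ⟨v', hv', rfl⟩ := Finset.mem_image.1 ha'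
    apply hne
    have h1 : ((x (j v) : G) : G ⧸ L) = ((x (j v') : G) : G ⧸ L) := QuotientGroup.eq.2 hL
    rw [(hj v hv).2, (hj v' hv').2] at h1
    rw [h1]

theorem lin_rel (K C L : Subgroup G) (hLK : L ≤ K) (n m : ℕ) (hC : MixSep C L n)
    (h : ∀ B : Finset G, (∀ b ∈ B, b ∈ K) → ∃ (s : ℕ) (P : Fin s → Subgroup G), Peri K C L B m P) :
    Lin K L (n * (m + 1)) := by
  classical
  intro T B hT hB
  obtain ⟨wC, EC, hwC, hC0, hCi⟩ := hC T (B.filter fun b => b ∈ C) hT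
    (fun b hb => (Finset.mem_filter.1 hb).2)
  obtain ⟨s, P, hP⟩ := h B hB
  obtain ⟨key, D, c₁, hDL, hk1, hk2, hk3⟩ := exists_keys hP
  obtain ⟨f, hf⟩ : ∃ f, f = EC.card + 1 := ⟨_, rfl⟩
  obtain ⟨D', hD'⟩ : ∃ D', D' = (Sp (insert 1 T) f ×ˢ D).image fun z => z.1 * z.2 := ⟨_, rfl⟩
  have hT1 : ∀ a ∈ insert 1 T, a ∈ L := by
    intro a ha
    rcases Finset.mem_insert.1 ha with rfl | ha
    · exact L.one_mem
    · exact hT a ha
  have hDD : D ⊆ D' := by
    intro d hd
    rw [hD']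
    have h1 : (1 : G) ∈ Sp (insert 1 T) 0 := by
      rw [Sp, Finset.mem_singleton]
    exact Finset.mem_image.2 ⟨(1, d), Finset.mem_product.2
      ⟨sp_mono (Finset.mem_insert_self _ _) (Nat.zero_le _) h1, hd⟩, one_mul d⟩
  have hD'L : ∀ d ∈ D', d ∈ L := by
    intro d hd
    rw [hD'] at hd
    obtain ⟨⟨a, b⟩, hab, rfl⟩ := Finset.mem_image.1 hd
    obtain ⟨h1, h2⟩ := Finset.mem_product.1 hab
    exact L.mul_mem (sp_sub hT1 h1) (hDL b h2)
  obtain ⟨c₂, hc₂⟩ := inter_bound P hP.mal D' hD'L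
  obtain ⟨ω, hω⟩ := hP.con D' hD'L
  obtain ⟨wP, EP, hwP, hPi⟩ := hP.thick ((D' ×ˢ T ×ˢ D').image fun z => z.1⁻¹ * z.2.1 * z.2.2)
    ((D' ×ˢ B).image (fun z => z.1⁻¹ * z.2)) (by
    intro b hb
    obtain ⟨⟨d, b'⟩, hdb, rfl⟩ := Finset.mem_image.1 hb
    obtain ⟨h1, h2⟩ := Finset.mem_product.1 hdb
    exact K.mul_mem (K.inv_mem (hLK (hD'L d h1))) (hB b' h2))
  obtain ⟨A, hA⟩ : ∃ A, A = c₁ * B.card + c₂ * (ω * B.card) := ⟨_, rfl⟩
  obtain ⟨g, hg⟩ : ∃ g, g = EP.card * D'.card + 1 := ⟨_, rfl⟩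
  obtain ⟨e, he⟩ : ∃ e, e = g + 2 * f := ⟨_, rfl⟩
  obtain ⟨a, ha⟩ : ∃ a : G → ℕ, a = fun x => if wC x = 0 then 0 else
    (wC x - 1) * (m + 1) + wP x + 1 := ⟨_, rfl⟩
  have ha0 : ∀ x, a x = 0 ↔ wC x = 0 := by
    intro x
    rw [ha]
    show (if wC x = 0 then 0 else (wC x - 1) * (m + 1) + wP x + 1) = 0 ↔ wC x = 0
    by_cases hx : wC x = 0
    · rw [if_pos hx]
      exact ⟨fun _ => hx, fun _ => rfl⟩
    · rw [if_neg hx]
      exact ⟨fun h => absurd h (by omega), fun h => absurd h hx⟩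
  have ha1 : ∀ x i, 1 ≤ i → a x = i → wC x = (i - 1) / (m + 1) + 1 ∧ wP x = (i - 1) % (m + 1) := by
    intro x i hi hx
    have hx0 : wC x ≠ 0 := fun h0 => by
      have := (ha0 x).2 h0
      omega
    rw [ha] at hx
    change (if wC x = 0 then 0 else (wC x - 1) * (m + 1) + wP x + 1) = i at hx
    rw [if_neg hx0] at hx
    have h1 : i - 1 = wP x + (m + 1) * (wC x - 1) := by
      rw [← hx, Nat.add_sub_cancel]
      ring
    have h2 : wP x < m + 1 := Nat.lt_succ_of_le (hwP x)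
    rw [h1, Nat.add_mul_div_left _ _ (Nat.succ_pos m), Nat.div_eq_of_lt h2, Nat.add_mul_mod_self_left,
      Nat.mod_eq_of_lt h2]
    exact ⟨by omega, rfl⟩
  refine ⟨a, EC, e * (A + 1), ?_, ?_, ?_, ?_⟩
  · intro x
    by_cases hx : wC x = 0
    · rw [(ha0 x).2 hx]
      exact Nat.zero_le _
    · rw [ha]
      show (if wC x = 0 then 0 else (wC x - 1) * (m + 1) + wP x + 1) ≤ n * (m + 1)
      rw [if_neg hx]
      have h1 := hwP x
      have h2 := hwC x
      have h3 : (wC x - 1 + 1) * (m + 1) ≤ n * (m + 1) := Nat.mul_le_mul_right _ (by omega)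
      have h4 : (wC x - 1 + 1) * (m + 1) = (wC x - 1) * (m + 1) + (m + 1) := by ring
      omega
  · intro x hx y hxy
    refine hC0 x ((ha0 x).1 hx) y ?_
    have h1 : (fun b => b ∈ {x | a x = 0}) = (fun b => b ∈ {x | wC x = 0}) := by
      funext b
      exact propext (ha0 b)
    rwa [h1] at hxy
  · have h1 : 1 ≤ e := by omega
    exact Nat.one_le_iff_ne_zero.2 (Nat.mul_ne_zero (by omega) (by omega))
  · intro r i p β hi hs hinj hβ hcol
    obtain ⟨M, hM⟩ : ∃ M, M = r * (e * (A + 1)) := ⟨_, rfl⟩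
    rw [← hM] at hs hinj hβ hcol ⊢
    have hpL : ∀ j < M, ∀ j' < M, (p j)⁻¹ * p j' ∈ L := fun j hj j' hj' =>
      path_mem T L hT p M hs j j' hj hj'
    have hnear : ∀ j j' π, j ≤ j' → j' ≤ j + f → j' < M → β j' ∉ C →
        key (β j') (p j') = some π → p j ∈ nb P D' π := by
      intro j j' π h1 h2 h3 h4 h5
      obtain ⟨d, hd, hd'⟩ := hk1 (β j') (hβ j' h3) h4 (p j') π h5
      refine ⟨(p j)⁻¹ * p j' * d, ?_, ?_⟩
      · rw [hD']
        exact Finset.mem_image.2 ⟨((p j)⁻¹ * p j', d), Finset.mem_product.2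
          ⟨path_sp T p M hs f j j' h1 h3 h2, hd⟩, rfl⟩
      · have : p j * ((p j)⁻¹ * p j' * d) = p j' * d := by group
        rw [this]
        exact hd'
    have h1 : ∀ u, u + f ≤ M → ∃ j, u ≤ j ∧ j < u + f ∧ β j ∉ C := by
      intro u hu
      by_contra hcon
      push Not at hcon
      have h2 := run_card (T : Set G) _ EC (hCi ((i - 1) / (m + 1) + 1) (Nat.succ_pos _)) p u f (by
        intro j hj hj'
        exact hs j (by omega)) (by
        intro j hj hj'
        exact ⟨β j, Finset.mem_filter.2 ⟨hβ j (by omega), hcon j hj hj'⟩,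
          (ha1 _ i hi (hcol j (by omega))).1⟩)
      have h3 : (Finset.Ico u (u + f)).card ≤ EC.card := by
        refine Finset.card_le_card_of_injOn (fun j => (p u)⁻¹ * p j) ?_ ?_
        · intro j hj
          obtain ⟨h4, h5⟩ := Finset.mem_Ico.1 (Finset.mem_coe.1 hj)
          exact Finset.mem_coe.2 (h2 j h4 h5)
        · intro j hj j' hj' hjj
          obtain ⟨h4, h5⟩ := Finset.mem_Ico.1 (Finset.mem_coe.1 hj)
          obtain ⟨h6, h7⟩ := Finset.mem_Ico.1 (Finset.mem_coe.1 hj')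
          exact hinj j (by omega) j' (by omega) (mul_left_cancel hjj)
      rw [Nat.card_Ico] at h3
      omega
    have h2 : ∀ u π, u + g ≤ M → ¬ ∀ k, u ≤ k → k < u + g → p k ∈ nb P D' π := by
      intro u π hu hn
      have h3 := near_run P T B D' EP wP ((i - 1) % (m + 1)) π (hPi π.1 _) p β u g
        (fun j hj hj' => hs j (by omega)) (fun j hj hj' => hβ j (by omega))
        (fun j hj hj' => (ha1 _ i hi (hcol j (by omega))).2)
        (fun j hj hj' j' hj1 hj2 => hinj j (by omega) j' (by omega)) hn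
      omega
    have hbr := exists_break M f g (fun j => β j ∉ C) (fun j => key (β j) (p j))
      (fun k π => p k ∈ nb P D' π) h1 h2 (fun k j π h3 h4 h5 h6 h7 =>
        hnear k j π h3 (by omega) h5 h6 h7)
    have hcnt := count_breaks P B D D' key c₁ c₂ ω M f hk1 hk2 hk3 hω hc₂ hDD p β hpL hinj hβ
      (fun j j' π h3 h4 h5 h6 h7 => hnear j j' π (by omega) h4 h5 h6 h7)
    have hmany := card_breaks M e (r * (A + 1)) (fun j => β j ∉ C ∧ (key (β j) (p j) = none ∨
      ∃ π, key (β j) (p j) = some π ∧ ∃ j', j < j' ∧ j' ≤ j + f ∧ j' < M ∧ β j' ∉ C ∧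
        ∃ π', key (β j') (p j') = some π' ∧ π' ≠ π)) (by
      intro u hu
      rw [he] at hu ⊢
      exact hbr u hu) (by
      rw [hM]
      apply le_of_eq
      ring)
    rw [← hA] at hcnt
    have hR : r ≤ ((Finset.range M).image fun j => ((p j * β j : G) : G ⧸ L)).card := by
      by_contra hlt
      have h3 : r * (A + 1) ≤ A *
          ((Finset.range M).image fun j => ((p j * β j : G) : G ⧸ L)).card := by
        refine Nat.le_trans ?_ hcnt
        convert hmany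
      have h4 : A * ((Finset.range M).image fun j => ((p j * β j : G) : G ⧸ L)).card ≤ A * r :=
        Nat.mul_le_mul_left _ (by omega)
      have h5 : r * (A + 1) = A * r + r := by ring
      omega
    exact choose_leaves L (fun j => p j * β j) M r hR

end Pool.Agent.Helper74.RT
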