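import Pool.Agent.Helper80.PP.Thick

/-!
RT-Prod. The product of thick colourings for finitely many subgroups.
-/

set_option autoImplicit false

namespace Pool.Agent.Helper74.RT

open Pool.Agent.Helper65.TH
open Pool.Agent.Helper65.GN (Bdd)
open Pool.Agent.Helper80.PP

/-- product colouring: the thick classes are bounded along every `P q` -/
theorem prod_thick {G : Type*} [Group G] (K : Subgroup G) {s : ℕ} (P : Fin s → Subgroup G)
    (m : Fin s → ℕ) (h : ∀ q, ThickSep K (P q) (m q)) (T B : Finset G) (hB : ∀ b ∈ B, b ∈ K) :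
    ∃ (w : G → ℕ) (E : Finset G), (∀ x, w x + 1 ≤ ∏ q, (m q + 1)) ∧ ∀ q i,
      Bdd {t | t ∈ T ∧ t ∈ P q} {x | ∃ b ∈ B, w (x * b) = i} E := by
  classical
  have h1 : ∀ q, ∃ (w : G → ℕ) (E : Finset G), (∀ x, w x ≤ m q) ∧
      ∀ i, Bdd ((T.filter fun t => t ∈ P q : Finset G) : Set G) {x | ∃ b ∈ B, w (x * b) = i} E :=
    fun q => h q (T.filter fun t => t ∈ P q) B (fun t ht => (Finset.mem_filter.1 ht).2) hB
  choose w E hw hE using h1
  obtain ⟨c, hc⟩ : ∃ c : G → ∀ q, Fin (m q + 1), ∀ x q, ((c x q : Fin (m q + 1)) : ℕ) = w q x :=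
    ⟨fun x q => ⟨w q x, Nat.lt_succ_of_le (hw q x)⟩, fun _ _ => rfl⟩
  refine ⟨fun x => (finPiFinEquiv (c x) : ℕ), Finset.univ.biUnion E, fun x => (finPiFinEquiv (c x)).2,
    ?_⟩
  intro q i x hx y hxy
  obtain ⟨b₀, -, hb₀⟩ := id hx
  obtain ⟨i', hi'⟩ : ∃ i' : ∀ q, Fin (m q + 1), (finPiFinEquiv i' : ℕ) = i := ⟨c (x * b₀), hb₀⟩
  have hcl : ∀ z, z ∈ {x | ∃ b ∈ B, (finPiFinEquiv (c (x * b)) : ℕ) = i} →
      z ∈ {x | ∃ b ∈ B, w q (x * b) = i' q} := by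
    rintro z ⟨b, hb, hz⟩
    refine ⟨b, hb, ?_⟩
    have h2 : c (z * b) = i' := by
      apply finPiFinEquiv.injective
      apply Fin.ext
      rw [hz, hi']
    rw [← hc, h2]
  refine Finset.mem_biUnion.2 ⟨q, Finset.mem_univ _, ?_⟩
  refine hE q (i' q) x (hcl x hx) y ?_
  refine Chain.mono ?_ hcl hxy
  rintro t ⟨ht, htq⟩
  exact Finset.mem_coe.2 (Finset.mem_filter.2 ⟨ht, htq⟩)

end Pool.Agent.Helper74.RT
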